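import Pool.Agent.R629.NF.ConcQ

/-!
# MP_f2eb9c_nt: mod p modularity for `Sp_{2n}` and values on the edge

`G = Sp_{2n}`, so that the dual group is `SO_{2n+1}`, and `p` is an odd prime.  `(r_i)` is a countable
family of continuous homomorphisms from the absolute Galois group of `ℚ` to `SO_{2n+1}(k)`, pairwise
not isomorphic and irreducible as representations of dimension `2n + 1`.  `(c_j)` is a countable family
of Hecke eigenclasses, given by their eigenvalues `λ_j(s, r)` on the elements of the Hecke algebra at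
`s` which correspond to the exterior powers `Λ^r` of the standard representation; each of them matches
a continuous homomorphism `ρ_j` to `SO_{2n+1}(k)` which is irreducible.  For each set `A` of eigenclasses
(for instance the eigenclasses of level `N` and weight `x`), `r_i` is matched by an eigenclass in `A` if
and only if almost all values `l_i(t)` of the `L`-function of `r_i` on the line `Re s = 1` are algebraic
over a field generated by countably many constants, the values of the `L`-functions of the `ρ_j` with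
`j` in `A` at the same point, the ordinate `t` and the `q^{-it}`.  The values of those `r_i` which are
matched by no eigenclass are algebraically independent over the field generated by the values of all
`ρ_j`.  Chebotarev's theorem is not assumed.
-/

set_option autoImplicit false

namespace Pool.Agent.Results.MP_f2eb9c_nt.MatchingOnTheEdge

open MeasureTheory NumberField IsDedekindDomain Polynomial
open Pool.Agent.R629.NF
open Pool.Agent.R629.SP
open Pool.Agent.TH339.MP (nm pr dg Sp mem_Sp nm_eq dg_pos)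

/-- The composition of a homomorphism to `SO_{2n+1}(k)` with the standard representation. -/
noncomputable def std {k : Type} [Field k] {G : Type} [Group G] {n : ℕ}
    (r : G →* Matrix.specialOrthogonalGroup (Fin (2 * n + 1)) k) : G →* GL (Fin (2 * n + 1)) k :=
  MonoidHom.toHomUnits ((Submonoid.subtype _).comp r)

/-- The Hecke polynomial of the eigenvalues `λ(r)` of the elements of the Hecke algebra which
correspond to the exterior powers `Λ^r` of the standard representation. -/
noncomputable def heckePoly {k : Type} [Field k] (n : ℕ) (lam : ℕ → k) : k[X] :=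
  ∑ r ∈ Finset.range (2 * n + 2), C ((-1) ^ r * lam r) * X ^ (2 * n + 1 - r)

/-- The system of eigenvalues `λ` matches `r` at all primes outside `S`: the trace of `Λ^r` on the
Frobenius element at `v` is `λ(v, r)` for all `r`, that is the characteristic polynomial is the Hecke
polynomial. -/
def Matches {k Ω : Type} [Field k] [Field Ω] [CharZero Ω] [IsAlgClosure ℚ Ω] {n : ℕ}
    (F : HeightOneSpectrum (𝓞 ℚ) → GalOf ℚ Ω) (S : Finset ℕ)
    (lam : HeightOneSpectrum (𝓞 ℚ) → ℕ → k)
    (r : GalOf ℚ Ω →* Matrix.specialOrthogonalGroup (Fin (2 * n + 1)) k) : Prop :=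
  ∀ v, (pr v : ℕ) ∉ S → (std r (F v)).val.charpoly = heckePoly n (lam v)

/-- **Matching on the edge.** -/
theorem result {Ω : Type} [Field Ω] [CharZero Ω] [IsAlgClosure ℚ Ω]
    {p : ℕ} [Fact p.Prime] (_ : p ≠ 2) {k : Type} [Field k] [IsAlgClosed k] [CharP k p] {n : ℕ}
    {F : HeightOneSpectrum (𝓞 ℚ) → GalOf ℚ Ω} (hF : ∀ v, IsFrobAt Ω v (F v : Gal(Ω/ℚ)))
    {θ : k → ℂ} (hθ : Function.Injective θ) (hθ1 : ∀ z : k, z ≠ 0 → ‖θ z‖ = 1)
    {J : Type} [Countable J] {lam : J → HeightOneSpectrum (𝓞 ℚ) → ℕ → k}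
    {ρ : J → GalOf ℚ Ω →* Matrix.specialOrthogonalGroup (Fin (2 * n + 1)) k} {SJ : J → Finset ℕ}
    (hρ : ∀ j, IsSmooth (std (ρ j))) (hρirr : ∀ j, (rep (std (ρ j))).IsIrreducible)
    (hmatch : ∀ j, Matches F (SJ j) (lam j) (ρ j))
    {I : Type} [Countable I]
    {r : I → GalOf ℚ Ω →* Matrix.specialOrthogonalGroup (Fin (2 * n + 1)) k} {SI : I → Finset ℕ}
    (hr : ∀ i, IsSmooth (std (r i))) (hrirr : ∀ i, (rep (std (r i))).IsIrreducible)
    (hne : ∀ i i', i' ≠ i → IsEmpty ((rep (std (r i))).Equiv (rep (std (r i'))))) :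
    ((∀ i, ∃ l : ℝ → ℂ, IsEdgeOf (SI i) (2 * n + 1) (frobLift θ F (std (r i))) 0 l) ∧
      ∀ j, ∃ l : ℝ → ℂ, IsEdgeOf (SJ j) (2 * n + 1) (frobLift θ F (std (ρ j))) 0 l) ∧
    ∀ (l : I → ℝ → ℂ) (lH : J → ℝ → ℂ),
      (∀ i, IsEdgeOf (SI i) (2 * n + 1) (frobLift θ F (std (r i))) 0 (l i)) →
      (∀ j, IsEdgeOf (SJ j) (2 * n + 1) (frobLift θ F (std (ρ j))) 0 (lH j)) →
      (∀ (i : I) (A : Set J),
        [∃ j ∈ A, Matches F (SI i ∪ SJ j) (lam j) (r i),
          ∃ j ∈ A, ∃ T : Finset ℕ, Matches F T (lam j) (r i),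
          DependentOn (l i) fun j : A => lH j,
          ¬ IndependentOf (l i) fun j : A => lH j].TFAE) ∧
      (∀ k' : Subfield ℂ, (k' : Set ℂ).Countable → ∀ᵐ t : ℝ, AlgebraicIndependent
        (IntermediateField.adjoin k' (valSet (fun j => lH j t) t))
        fun i : {i : I // ¬ ∃ j, ∃ T : Finset ℕ, Matches F T (lam j) (r i)} => l i t) ∧
      ((∀ i, ∃ j, ∃ T : Finset ℕ, Matches F T (lam j) (r i)) ↔
        ∃ k' : Subfield ℂ, (k' : Set ℂ).Countable ∧ ∀ᵐ t : ℝ, ∀ i,
          IsAlgebraic (IntermediateField.adjoin k' (valSet (fun j => lH j t) t)) (l i t)) := by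
  classical
  refine ⟨⟨fun i => exists_edgeOf_le (unram_mono unramQ (Finset.empty_subset _))
      (frobLift_sys hθ1 F (std (r i)) _),
    fun j => exists_edgeOf_le (unram_mono unramQ (Finset.empty_subset _))
      (frobLift_sys hθ1 F (std (ρ j)) _)⟩, fun l lH hl hlH => ?_⟩
  -- matching and isomorphisms, for a set of eigenclasses
  have key : ∀ (i : I) (A : Set J),
      ((∃ j ∈ A, Matches F (SI i ∪ SJ j) (lam j) (r i)) ↔
        IsIn (fun j : A => std (ρ j)) (std (r i))) ∧
      ((∃ j ∈ A, ∃ T : Finset ℕ, Matches F T (lam j) (r i)) ↔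
        IsIn (fun j : A => std (ρ j)) (std (r i))) ∧
      (IsIn (fun j : A => std (ρ j)) (std (r i)) ↔ DependentOn (l i) fun j : A => lH j) ∧
      ((DependentOn (l i) fun j : A => lH j) ∨ IndependentOf (l i) fun j : A => lH j) := by
    intro i A
    have hmain := (main_concQ hF hθ hθ1 (R := fun i => std (r i)) hr hrirr
      (H := fun j : A => std (ρ j)) (fun j => hρ j) (fun j => hρirr j) hl
      (SJ := fun j : A => SJ j) (lH := fun j : A => lH j) (fun j => hlH j)).1 i
    have h1 : IsIn (fun j : A => std (ρ j)) (std (r i)) →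
        ∃ j ∈ A, Matches F (SI i ∪ SJ j) (lam j) (r i) := by
      rintro ⟨⟨j, hj⟩, ⟨E⟩⟩
      refine ⟨j, hj, fun v hv => ?_⟩
      rw [Finset.mem_union, not_or] at hv
      rw [← hmatch j v hv.2]
      exact charpoly_equiv E _
    have h2 : (∃ j ∈ A, ∃ T : Finset ℕ, Matches F T (lam j) (r i)) →
        IsIn (fun j : A => std (ρ j)) (std (r i)) := by
      rintro ⟨j, hj, T, h⟩
      rw [hmain.1]
      refine ⟨1, one_pos, Finsupp.single ⟨j, hj⟩ 1, ?_⟩
      have hfin : {p : Nat.Primes | (p : ℕ) ∈ T ∪ SJ j}.Finite :=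
        Set.Finite.preimage (f := fun p : Nat.Primes => (p : ℕ)) Subtype.val_injective.injOn
          (T ∪ SJ j).finite_toSet
      refine hfin.subset ?_
      rintro q ⟨z, hne'⟩
      by_contra hno
      apply hne'
      change ¬ ((q : ℕ) ∈ T ∪ SJ j) at hno
      rw [Finset.mem_union, not_or] at hno
      rw [Finsupp.sum_single_index (zero_mul _)]
      beta_reduce
      have h5 : above (frobLift θ F (std (r i))) q = above (frobLift θ F (std (ρ j))) q := by
        unfold above
        refine Finset.prod_congr rfl fun v hv => ?_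
        rw [mem_Sp] at hv
        rw [← hv] at hno
        unfold frobLift
        rw [h v hno.1, hmatch j v hno.2]
      rw [h5]
      push_cast
      ring
    refine ⟨⟨fun ⟨j, hj, h⟩ => h2 ⟨j, hj, _, h⟩, h1⟩, ⟨h2, fun h => ?_⟩, hmain.2.1, hmain.2.2⟩
    obtain ⟨j, hj, h⟩ := h1 h
    exact ⟨j, hj, _, h⟩
  -- all eigenclasses
  have hall : ∀ i, (∃ j, ∃ T : Finset ℕ, Matches F T (lam j) (r i)) ↔
      IsIn (fun j => std (ρ j)) (std (r i)) := by
    intro i
    constructor
    · rintro ⟨j, T, h⟩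
      obtain ⟨⟨j', _⟩, hE⟩ := (key i Set.univ).2.1.1 ⟨j, Set.mem_univ j, T, h⟩
      exact ⟨j', hE⟩
    · rintro ⟨j, hE⟩
      obtain ⟨j', -, h⟩ := (key i Set.univ).2.1.2 ⟨⟨j, Set.mem_univ j⟩, hE⟩
      exact ⟨j', h⟩
  obtain ⟨h1, h2⟩ := main_concQ hF hθ hθ1 (R := fun i => std (r i)) hr hrirr
    (H := fun j => std (ρ j)) hρ hρirr hl hlH
  refine ⟨fun i A => ?_, ?_, ?_⟩
  · obtain ⟨a1, a2, a3, a4⟩ := key i A
    tfae_have 1 ↔ 2 := a1.trans a2.symm
    tfae_have 1 ↔ 3 := a1.trans a3
    tfae_have 3 → 4 := fun h => not_indep h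
    tfae_have 4 → 3 := fun h => a4.resolve_right h
    tfae_finish
  · intro k' hk'
    filter_upwards [h2 hne k' hk'] with t ht
    exact ht.comp (fun i : {i : I // ¬ ∃ j, ∃ T : Finset ℕ, Matches F T (lam j) (r i)} =>
      (⟨i.1, fun h => i.2 ((hall i.1).2 h)⟩ : {i : I // ¬ IsIn (fun j => std (ρ j)) (std (r i))}))
      fun a b hab => Subtype.ext (congrArg (fun x => x.1) hab)
  · rw [← dependent_all]
    exact forall_congr' fun i => (hall i).trans (h1 i).2.1

end Pool.Agent.Results.MP_f2eb9c_nt.MatchingOnTheEdge
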